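import Mathlib

/-!
# Cycles as lists, complete bipartite graphs, and alternating paths (helper116)
-/

set_option autoImplicit false

open Finset

namespace Q116.DE

variable {V : Type*}

/-- a cycle of length `m`, as a cyclic list of different vertices -/
def HasCyc (G : SimpleGraph V) (m : ℕ) : Prop :=
  ∃ (a b : V) (l : List V), (a :: (l ++ [b])).length = m ∧ (a :: (l ++ [b])).Nodup ∧
    (a :: (l ++ [b])).IsChain G.Adj ∧ G.Adj b a

theorem contains_of_hasCyc (G : SimpleGraph V) (m : ℕ) (hm : 3 ≤ m) (h : HasCyc G m) :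
    (SimpleGraph.cycleGraph m).IsContained G := by
  obtain ⟨a, b, l, hl, hnd, hch, hba⟩ := h
  set L := a :: (l ++ [b]) with hL
  have hpos : 0 < L.length := by omega
  have h0 : L[0]'hpos = a := by simp [hL]
  have hlast : L[L.length - 1]'(by omega) = b := by
    simp [hL]
  obtain ⟨n, rfl⟩ : ∃ n, m = n + 2 := ⟨m - 2, by omega⟩
  have key : ∀ i j : Fin (n + 2), j - i = 1 → G.Adj (L[i.1]'(by omega)) (L[j.1]'(by omega)) := by
    intro i j hij
    have hj : j = i + 1 := by
      rw [← hij]; abel
    by_cases hi : i.1 + 1 < n + 2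
    · have hjv : j.1 = i.1 + 1 := by
        rw [hj, Fin.val_add_one_of_lt']
        · exact hi
      have := List.isChain_iff_getElem.mp hch i.1 (by omega)
      simp only [hjv]
      exact this
    · have hi' : i.1 = n + 1 := by omega
      have hjv : j.1 = 0 := by
        rw [hj]
        have : i = Fin.last (n + 1) := by
          apply Fin.ext; simp [hi']
        rw [this]
        simp
      have e1 : L[i.1]'(by omega) = b := by
        refine Eq.trans ?_ hlast
        congr 1
        omega
      have e2 : L[j.1]'(by omega) = a := by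
        refine Eq.trans ?_ h0
        congr 1
      rw [e1, e2]
      exact hba
  refine ⟨⟨⟨fun i => L[i.1]'(by omega), ?_⟩, ?_⟩⟩
  · intro u v huv
    rw [SimpleGraph.cycleGraph_adj] at huv
    rcases huv with h | h
    · exact (key v u h).symm
    · exact key u v h
  · intro i j hij
    have := (List.Nodup.getElem_inj_iff hnd).mp hij
    exact Fin.ext this

/-- interleave two lists -/
def weave : List V → List V → List V
  | a :: l, b :: l' => a :: b :: weave l l'
  | _, _ => []

theorem weave_length : ∀ (l l' : List V), l.length = l'.length → (weave l l').length = 2 * l.length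
  | [], [], _ => rfl
  | a :: l, b :: l', h => by
    simp only [weave, List.length_cons] at h ⊢
    rw [weave_length l l' (by omega)]
    omega
  | [], b :: l', h => by simp at h
  | a :: l, [], h => by simp at h

theorem weave_mem (x : V) : ∀ (l l' : List V), x ∈ weave l l' → x ∈ l ∨ x ∈ l'
  | a :: l, b :: l', h => by
    simp only [weave, List.mem_cons] at h ⊢
    rcases h with h | h | h
    · exact Or.inl (Or.inl h)
    · exact Or.inr (Or.inl h)
    · rcases weave_mem x l l' h with h | h
      · exact Or.inl (Or.inr h)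
      · exact Or.inr (Or.inr h)
  | [], _, h => by simp [weave] at h
  | _ :: _, [], h => by simp [weave] at h

theorem weave_nodup : ∀ (l l' : List V), l.Nodup → l'.Nodup → (∀ x ∈ l, ∀ y ∈ l', x ≠ y) →
    (weave l l').Nodup
  | a :: l, b :: l', h1, h2, h3 => by
    simp only [weave, List.nodup_cons] at h1 h2 ⊢
    refine ⟨?_, ?_, weave_nodup l l' h1.2 h2.2 (fun x hx y hy => h3 x (by simp [hx]) y (by simp [hy]))⟩
    · intro h
      rcases List.mem_cons.mp h with h | h
      · exact h3 a (by simp) b (by simp) h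
      · rcases weave_mem a l l' h with h | h
        · exact h1.1 h
        · exact h3 a (by simp) a (by simp [h]) rfl
    · intro h
      rcases weave_mem b l l' h with h | h
      · exact h3 b (by simp [h]) b (by simp) rfl
      · exact h2.1 h
  | [], _, _, _, _ => by simp [weave]
  | _ :: _, [], _, _, _ => by simp [weave]

theorem weave_chain (G : SimpleGraph V) : ∀ (l l' : List V),
    (∀ x ∈ l, ∀ y ∈ l', G.Adj x y) → (weave l l').IsChain G.Adj ∧
      (∀ b : V, (∀ x ∈ l, G.Adj x b) → (b :: weave l l').IsChain G.Adj)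
  | a :: l, b :: l', h => by
    have ih := weave_chain G l l' (fun x hx y hy => h x (by simp [hx]) y (by simp [hy]))
    have h1 : (b :: weave l l').IsChain G.Adj :=
      ih.2 b (fun x hx => h x (by simp [hx]) b (by simp))
    constructor
    · simp only [weave]
      exact List.IsChain.cons_cons (h a (by simp) b (by simp)) h1
    · intro c hc
      simp only [weave]
      exact List.IsChain.cons_cons (hc a (by simp)).symm
        (List.IsChain.cons_cons (h a (by simp) b (by simp)) h1)
  | [], _, _ => by simp [weave]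
  | _ :: _, [], _ => by simp [weave]

theorem weave_last : ∀ (l l' : List V), l.length = l'.length → 1 ≤ l.length →
    ∃ (a b : V) (m : List V), weave l l' = a :: (m ++ [b]) ∧ a ∈ l ∧ b ∈ l'
  | [], _, _, h => by simp at h
  | _ :: _, [], h, _ => by simp at h
  | [a], [b], _, _ => ⟨a, b, [], rfl, by simp, by simp⟩
  | [a], _ :: _ :: _, h, _ => by simp at h
  | a :: a' :: l, [b], h, _ => by simp at h
  | a :: a' :: l, b :: b' :: l', h, _ => by
    obtain ⟨c, d, m, hm, hc, hd⟩ := weave_last (a' :: l) (b' :: l') (by simpa using h) (by simp)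
    refine ⟨a, d, b :: c :: m, ?_, by simp, by simp only [List.mem_cons] at hd ⊢; tauto⟩
    have : weave (a :: a' :: l) (b :: b' :: l') = a :: b :: weave (a' :: l) (b' :: l') := rfl
    rw [this, hm]
    simp

theorem hasCyc_of_biclique (G : SimpleGraph V) (k : ℕ) (hk : 1 ≤ k) (l l' : List V)
    (hl : l.length = k) (hl' : l'.length = k) (h1 : l.Nodup) (h2 : l'.Nodup)
    (h : ∀ x ∈ l, ∀ y ∈ l', G.Adj x y) : HasCyc G (2 * k) := by
  obtain ⟨a, b, m, hm, ha, hb⟩ := weave_last l l' (by omega) (by omega)
  refine ⟨a, b, m, ?_, ?_, ?_, (h a ha b hb).symm⟩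
  · rw [← hm, weave_length l l' (by omega), hl]
  · rw [← hm]
    exact weave_nodup l l' h1 h2 (fun x hx y hy => (h x hx y hy).ne)
  · rw [← hm]
    exact (weave_chain G l l' h).1

/-! ### alternating paths -/

variable [DecidableEq V]

/-- first components -/
def fsts (E : Finset (V × V)) : Finset V := E.image Prod.fst

/-- second components -/
def snds (E : Finset (V × V)) : Finset V := E.image Prod.snd

theorem exists_core (c : ℕ) : ∀ (m : ℕ) (E : Finset (V × V)), #E ≤ m →
    c * (#(fsts E) + #(snds E)) < #E →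
    ∃ E' ⊆ E, E'.Nonempty ∧ (∀ v ∈ fsts E', c < #(E'.filter (fun p => p.1 = v))) ∧
      (∀ y ∈ snds E', c < #(E'.filter (fun p => p.2 = y))) := by
  intro m
  induction m with
  | zero =>
    intro E h1 h2
    omega
  | succ m ih =>
    intro E h1 h2
    by_cases hv : ∃ v ∈ fsts E, #(E.filter (fun p => p.1 = v)) ≤ c
    · obtain ⟨v, hv, hc⟩ := hv
      have hcard := Finset.card_filter_add_card_filter_not (s := E) (fun p : V × V => p.1 = v)
      have hpos : 0 < #(E.filter (fun p => p.1 = v)) := by
        obtain ⟨p, hp, rfl⟩ := Finset.mem_image.mp hv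
        exact Finset.card_pos.mpr ⟨p, by simp [hp]⟩
      have hf : #(fsts (E.filter (fun p => ¬ p.1 = v))) + 1 ≤ #(fsts E) := by
        have : fsts (E.filter (fun p => ¬ p.1 = v)) ⊆ (fsts E).erase v := by
          intro x hx
          obtain ⟨p, hp, rfl⟩ := Finset.mem_image.mp hx
          simp only [Finset.mem_filter] at hp
          exact Finset.mem_erase.mpr ⟨hp.2, Finset.mem_image.mpr ⟨p, hp.1, rfl⟩⟩
        have h3 := Finset.card_le_card this
        rw [Finset.card_erase_of_mem hv] at h3
        have : 0 < #(fsts E) := Finset.card_pos.mpr ⟨v, hv⟩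
        omega
      have hs : #(snds (E.filter (fun p => ¬ p.1 = v))) ≤ #(snds E) :=
        Finset.card_le_card (Finset.image_subset_image (Finset.filter_subset _ _))
      obtain ⟨E', h3, h4⟩ := ih (E.filter (fun p => ¬ p.1 = v)) (by omega) (by
        have h5 : c * (#(fsts (E.filter (fun p => ¬ p.1 = v))) +
            #(snds (E.filter (fun p => ¬ p.1 = v)))) + c ≤ c * (#(fsts E) + #(snds E)) := by
          calc _ = c * (#(fsts (E.filter (fun p => ¬ p.1 = v))) +
            #(snds (E.filter (fun p => ¬ p.1 = v))) + 1) := by ring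
            _ ≤ _ := Nat.mul_le_mul_left _ (by omega)
        omega)
      exact ⟨E', h3.trans (Finset.filter_subset _ _), h4⟩
    · by_cases hy : ∃ y ∈ snds E, #(E.filter (fun p => p.2 = y)) ≤ c
      · obtain ⟨v, hv, hc⟩ := hy
        have hcard := Finset.card_filter_add_card_filter_not (s := E) (fun p : V × V => p.2 = v)
        have hpos : 0 < #(E.filter (fun p => p.2 = v)) := by
          obtain ⟨p, hp, rfl⟩ := Finset.mem_image.mp hv
          exact Finset.card_pos.mpr ⟨p, by simp [hp]⟩
        have hf : #(snds (E.filter (fun p => ¬ p.2 = v))) + 1 ≤ #(snds E) := by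
          have : snds (E.filter (fun p => ¬ p.2 = v)) ⊆ (snds E).erase v := by
            intro x hx
            obtain ⟨p, hp, rfl⟩ := Finset.mem_image.mp hx
            simp only [Finset.mem_filter] at hp
            exact Finset.mem_erase.mpr ⟨hp.2, Finset.mem_image.mpr ⟨p, hp.1, rfl⟩⟩
          have h3 := Finset.card_le_card this
          rw [Finset.card_erase_of_mem hv] at h3
          have : 0 < #(snds E) := Finset.card_pos.mpr ⟨v, hv⟩
          omega
        have hs : #(fsts (E.filter (fun p => ¬ p.2 = v))) ≤ #(fsts E) :=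
          Finset.card_le_card (Finset.image_subset_image (Finset.filter_subset _ _))
        obtain ⟨E', h3, h4⟩ := ih (E.filter (fun p => ¬ p.2 = v)) (by omega) (by
          have h5 : c * (#(fsts (E.filter (fun p => ¬ p.2 = v))) +
              #(snds (E.filter (fun p => ¬ p.2 = v)))) + c ≤ c * (#(fsts E) + #(snds E)) := by
            calc _ = c * (#(fsts (E.filter (fun p => ¬ p.2 = v))) +
              #(snds (E.filter (fun p => ¬ p.2 = v))) + 1) := by ring
              _ ≤ _ := Nat.mul_le_mul_left _ (by omega)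
          omega)
        exact ⟨E', h3.trans (Finset.filter_subset _ _), h4⟩
      · push Not at hv hy
        exact ⟨E, subset_rfl, Finset.card_pos.mp (by omega), hv, hy⟩

theorem exists_out (c : ℕ) (E : Finset (V × V)) (v : V)
    (h : c < #(E.filter (fun p => p.1 = v))) (L : List V) (hL : L.length ≤ c) :
    ∃ y, (v, y) ∈ E ∧ y ∉ L := by
  by_contra hcon
  push Not at hcon
  have : #(E.filter (fun p => p.1 = v)) ≤ #L.toFinset := by
    apply Finset.card_le_card_of_injOn (fun p => p.2)
    · intro p hp
      simp only [Finset.coe_filter, Set.mem_setOf_eq] at hp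
      simp only [List.coe_toFinset, Set.mem_setOf_eq]
      apply hcon
      rw [← hp.2]
      exact hp.1
    · intro p hp q hq hpq
      simp only [Finset.coe_filter, Set.mem_setOf_eq] at hp hq
      exact Prod.ext (hp.2.trans hq.2.symm) hpq
  have := List.toFinset_card_le L
  omega

theorem exists_in (c : ℕ) (E : Finset (V × V)) (y : V)
    (h : c < #(E.filter (fun p => p.2 = y))) (L : List V) (hL : L.length ≤ c) :
    ∃ v, (v, y) ∈ E ∧ v ∉ L := by
  by_contra hcon
  push Not at hcon
  have : #(E.filter (fun p => p.2 = y)) ≤ #L.toFinset := by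
    apply Finset.card_le_card_of_injOn (fun p => p.1)
    · intro p hp
      simp only [Finset.coe_filter, Set.mem_setOf_eq] at hp
      simp only [List.coe_toFinset, Set.mem_setOf_eq]
      apply hcon
      rw [← hp.2]
      exact hp.1
    · intro p hp q hq hpq
      simp only [Finset.coe_filter, Set.mem_setOf_eq] at hp hq
      exact Prod.ext hpq (hp.2.trans hq.2.symm)
  have := List.toFinset_card_le L
  omega

theorem exists_alt (G : SimpleGraph V) (c : ℕ) (E : Finset (V × V))
    (hE : ∀ p ∈ E, G.Adj p.1 p.2) (hcard : c * (#(fsts E) + #(snds E)) < #E) :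
    ∀ p : ℕ, 1 ≤ p → 2 * p ≤ c →
    ∃ (y : V) (T : List V) (b : V) (l : List V), y :: T = l ++ [b] ∧ (y :: T).length = 2 * p - 1 ∧
      (y :: T).Nodup ∧ (y :: T).IsChain G.Adj ∧ y ∈ snds E ∧ b ∈ snds E ∧
      ∀ x ∈ y :: T, x ∈ fsts E ∨ x ∈ snds E := by
  obtain ⟨E', hsub, ⟨⟨v₀, y₀⟩, h0⟩, h1, h2⟩ := exists_core c #E E le_rfl hcard
  have hf : ∀ {v y}, (v, y) ∈ E' → v ∈ fsts E' := fun {v y} h => Finset.mem_image.mpr ⟨(v, y), h, rfl⟩
  have hs : ∀ {v y}, (v, y) ∈ E' → y ∈ snds E' := fun {v y} h => Finset.mem_image.mpr ⟨(v, y), h, rfl⟩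
  have hfE : ∀ {v}, v ∈ fsts E' → v ∈ fsts E := fun {v} h => Finset.image_subset_image hsub h
  have hsE : ∀ {v}, v ∈ snds E' → v ∈ snds E := fun {v} h => Finset.image_subset_image hsub h
  suffices h : ∀ p : ℕ, 1 ≤ p → 2 * p ≤ c →
    ∃ (y : V) (T : List V) (b : V) (l : List V), y :: T = l ++ [b] ∧ (y :: T).length = 2 * p - 1 ∧
      (y :: T).Nodup ∧ (y :: T).IsChain G.Adj ∧ y ∈ snds E' ∧ b ∈ snds E' ∧
      ∀ x ∈ y :: T, x ∈ fsts E' ∨ x ∈ snds E' by
    intro p hp hpc
    obtain ⟨y, T, b, l, h3, h4, h5, h6, h7, h8, h9⟩ := h p hp hpc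
    exact ⟨y, T, b, l, h3, h4, h5, h6, hsE h7, hsE h8, fun x hx => (h9 x hx).imp hfE hsE⟩
  intro p hp
  induction p, hp using Nat.le_induction with
  | base =>
    intro _
    exact ⟨y₀, [], y₀, [], rfl, rfl, by simp, by simp, hs h0, hs h0, by simp [hs h0]⟩
  | succ p hp ih =>
    intro hpc
    obtain ⟨y, T, b, l, h3, h4, h5, h6, h7, h8, h9⟩ := ih (by omega)
    obtain ⟨v, hv, hvL⟩ := exists_in c E' y (h2 y h7) (y :: T) (by omega)
    obtain ⟨y', hy', hyL⟩ := exists_out c E' v (h1 v (hf hv)) (v :: y :: T) (by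
      simp only [List.length_cons] at h4 ⊢; omega)
    refine ⟨y', v :: y :: T, b, y' :: v :: l, by simp [h3], ?_, ?_, ?_, hs hy', h8, ?_⟩
    · simp only [List.length_cons] at h4 ⊢; omega
    · exact List.nodup_cons.mpr ⟨hyL, List.nodup_cons.mpr ⟨hvL, h5⟩⟩
    · exact List.IsChain.cons_cons (hE _ (hsub hy')).symm (List.IsChain.cons_cons (hE _ (hsub hv)) h6)
    · intro x hx
      rcases List.mem_cons.mp hx with rfl | hx
      · exact Or.inr (hs hy')
      rcases List.mem_cons.mp hx with rfl | hx
      · exact Or.inl (hf hv)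
      · exact h9 x hx

end Q116.DE
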