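import Mathlib

/-!
# Foldings of graphs (helper116)
-/

set_option autoImplicit false

namespace Q116.DE

variable {V : Type} [DecidableEq V]

/-- In the subgraph of `G` induced on `T` the vertex `v` is dominated by `w ≠ v`: every neighbour
of `v` in `T` is a neighbour of `w` or `w` itself. (So `N(v) ⊆ N(w)` if `v` and `w` are not
adjacent, and `N[v] ⊆ N[w]` if they are.) -/
def Dominated (G : SimpleGraph V) (T : Finset V) (v w : V) : Prop :=
  w ∈ T ∧ w ≠ v ∧ ∀ y ∈ T, G.Adj v y → y ≠ w → G.Adj w y

/-- The subgraph induced on `T` folds onto the subgraph induced on `T'`: one after the other,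
vertices are removed which are dominated by a remaining vertex. -/
inductive FoldsTo (G : SimpleGraph V) : Finset V → Finset V → Prop
  | refl (T : Finset V) : FoldsTo G T T
  | step {T T' : Finset V} {v w : V} (hv : v ∈ T) (h : Dominated G T v w)
      (h' : FoldsTo G (T.erase v) T') : FoldsTo G T T'

/-- A graph is stiff if no vertex is dominated. -/
def Stiff {W : Type} (G : SimpleGraph W) : Prop :=
  ∀ v w : W, w ≠ v → ∃ y, G.Adj v y ∧ y ≠ w ∧ ¬ G.Adj w y

end Q116.DE
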