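import Pool.Agent.Q116.DE.Main
import Pool.Agent.Q116.DE.Defs

/-!
# From foldings to dismantling systems (helper116)
-/

set_option autoImplicit false

open Finset
open scoped Classical

namespace Q116.DE

variable {V : Type}

theorem exists_times (G : SimpleGraph V) {T₀ T : Finset V} (h : FoldsTo G T₀ T) :
    T ⊆ T₀ ∧ ∃ (t : V → ℕ) (w : V → V) (N : ℕ), (∀ u ∈ T₀, t u ≤ N) ∧ (∀ u ∈ T₀, u ∈ T ↔ t u = N) ∧
      (∀ u ∈ T₀, ∀ v ∈ T₀, t u < N → t u = t v → u = v) ∧
      (∀ u ∈ T₀, t u < N → w u ∈ T₀ ∧ t u < t (w u)) ∧ (∀ u ∈ T₀, t u = N → w u = u) ∧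
      (∀ u ∈ T₀, ∀ y ∈ T₀, t u < N → t u < t y → G.Adj u y → y ≠ w u → G.Adj (w u) y) := by
  induction h with
  | refl T =>
    refine ⟨subset_rfl, fun _ => 0, id, 0, by simp, by simp, by simp, by simp, by simp, by simp⟩
  | @step T T' v w₀ hv hd h' ih =>
    obtain ⟨hsub, t, w, N, h1, h2, h3, h4, h5, h6⟩ := ih
    refine ⟨hsub.trans (Finset.erase_subset _ _), fun u => if u = v then 0 else t u + 1,
      fun u => if u = v then w₀ else w u, N + 1, ?_, ?_, ?_, ?_, ?_, ?_⟩
    · intro u hu
      dsimp only
      split_ifs with h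
      · omega
      · have := h1 u (Finset.mem_erase.mpr ⟨h, hu⟩)
        omega
    · intro u hu
      dsimp only
      by_cases h : u = v
      · rw [if_pos h]
        constructor
        · intro h7
          rw [h] at h7
          exact absurd (hsub h7) (Finset.notMem_erase _ _)
        · intro h7
          exact absurd h7 (by omega)
      · rw [if_neg h, h2 u (Finset.mem_erase.mpr ⟨h, hu⟩)]
        omega
    · intro u hu u' hu'
      dsimp only
      by_cases h : u = v
      · rw [if_pos h]
        by_cases h7 : u' = v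
        · intro _ _; rw [h, h7]
        · rw [if_neg h7]
          intro _ h8
          exact absurd h8 (by omega)
      · rw [if_neg h]
        by_cases h7 : u' = v
        · rw [if_pos h7]
          intro _ h8
          exact absurd h8 (by omega)
        · rw [if_neg h7]
          intro h9 h10
          exact h3 u (Finset.mem_erase.mpr ⟨h, hu⟩) u' (Finset.mem_erase.mpr ⟨h7, hu'⟩) (by omega)
            (by omega)
    · intro u hu
      dsimp only
      by_cases h : u = v
      · simp only [h, if_true]
        intro _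
        refine ⟨hd.1, ?_⟩
        rw [if_neg hd.2.1]
        omega
      · simp only [h, if_false]
        intro h7
        obtain ⟨h8, h9⟩ := h4 u (Finset.mem_erase.mpr ⟨h, hu⟩) (by omega)
        refine ⟨Finset.mem_of_mem_erase h8, ?_⟩
        rw [if_neg (Finset.ne_of_mem_erase h8)]
        omega
    · intro u hu
      dsimp only
      by_cases h : u = v
      · simp only [h, if_true]
        intro h7; omega
      · simp only [h, if_false]
        intro h7
        exact h5 u (Finset.mem_erase.mpr ⟨h, hu⟩) (by omega)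
    · intro u hu y hy
      dsimp only
      by_cases h : u = v
      · simp only [h, if_true]
        intro _ _ h7 h8
        exact hd.2.2 y hy h7 h8
      · simp only [h, if_false]
        intro h7 h8 h9 h10
        by_cases hyv : y = v
        · rw [if_pos hyv] at h8; omega
        · rw [if_neg hyv] at h8
          exact h6 u (Finset.mem_erase.mpr ⟨h, hu⟩) y (Finset.mem_erase.mpr ⟨hyv, hy⟩) (by omega)
            (by omega) h9 h10

theorem card_edges_le_sum [Fintype V] (G : SimpleGraph V) (t : V → ℕ) :
    Nat.card G.edgeSet ≤ ∑ v : V, #(univ.filter (fun z => G.Adj v z ∧ t v ≤ t z)) := by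
  have h1 : Nat.card G.edgeSet = #G.edgeFinset := by
    rw [Nat.card_eq_fintype_card, ← SimpleGraph.edgeFinset_card]
  rw [h1]
  have h2 : G.edgeFinset ⊆ (univ.biUnion (fun v : V =>
      (univ.filter (fun z => G.Adj v z ∧ t v ≤ t z)).image (fun z => s(v, z)))) := by
    intro e he
    induction e using Sym2.ind with
    | _ a b =>
      rw [SimpleGraph.mem_edgeFinset, SimpleGraph.mem_edgeSet] at he
      rw [Finset.mem_biUnion]
      rcases le_total (t a) (t b) with h | h
      · exact ⟨a, Finset.mem_univ _, Finset.mem_image.mpr ⟨b, by simp [he, h], rfl⟩⟩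
      · exact ⟨b, Finset.mem_univ _, Finset.mem_image.mpr ⟨a, by simp [he.symm, h], Sym2.eq_swap⟩⟩
  refine (Finset.card_le_card h2).trans (Finset.card_biUnion_le.trans ?_)
  exact Finset.sum_le_sum (fun v _ => Finset.card_image_le)

theorem sum_core_le [Fintype V] (G : SimpleGraph V) (T : Finset V) :
    ∑ v ∈ T, #(univ.filter (fun z => G.Adj v z ∧ z ∈ T)) ≤
      2 * Nat.card (G.induce (T : Set V)).edgeSet := by
  have h1 : Nat.card (G.induce (T : Set V)).edgeSet = #(G.induce (T : Set V)).edgeFinset := by
    rw [Nat.card_eq_fintype_card, ← SimpleGraph.edgeFinset_card]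
  rw [h1, ← SimpleGraph.sum_degrees_eq_twice_card_edges]
  rw [← Finset.sum_coe_sort T]
  apply le_of_eq
  apply Fintype.sum_congr
  intro v
  rw [← SimpleGraph.card_neighborFinset_eq_degree]
  symm
  apply Finset.card_bij (fun (z : (T : Set V)) _ => (z : V))
  · intro z hz
    rw [SimpleGraph.mem_neighborFinset, SimpleGraph.comap_adj] at hz
    simp only [Finset.mem_filter, Finset.mem_univ, true_and]
    exact ⟨hz, z.2⟩
  · intro a _ b _ h
    exact Subtype.ext h
  · intro z hz
    simp only [Finset.mem_filter, Finset.mem_univ, true_and] at hz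
    refine ⟨⟨z, hz.2⟩, ?_, rfl⟩
    rw [SimpleGraph.mem_neighborFinset, SimpleGraph.comap_adj]
    exact hz.1

/-- the constant -/
def CK (k : ℕ) : ℕ := 2 * (CC (k - 1) (k - 1) + (k - 1) + 1)

theorem fold_bound (k : ℕ) (hk : 2 ≤ k) [Fintype V] (G : SimpleGraph V)
    (hfree : (SimpleGraph.cycleGraph (2 * k)).Free G) (T : Finset V) (h : FoldsTo G univ T) :
    Nat.card G.edgeSet ≤
      CK k * ((Nat.card V - #T) + Nat.card (G.induce (T : Set V)).edgeSet) := by
  obtain ⟨-, t, w, N, h1, h2, h3, h4, h5, h6⟩ := exists_times G h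
  let S : Sys V :=
    { G := G, t := t, w := w, N := N, K := k - 1
      ht := fun v => h1 v (Finset.mem_univ _)
      hinj := fun u v => h3 u (Finset.mem_univ _) v (Finset.mem_univ _)
      hlt := fun v hv => (h4 v (Finset.mem_univ _) hv).2
      hfix := fun v => h5 v (Finset.mem_univ _)
      hdom := fun v y => h6 v (Finset.mem_univ _) y (Finset.mem_univ _)
      hK := by omega
      hfree := fun hc => hfree (contains_of_hasCyc G _ (by omega) (by
        have e : 2 * (k - 1 + 1) = 2 * k := by omega
        rwa [e] at hc)) }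
  have hR : #S.R = Nat.card V - #T := by
    have : S.R = univ \ T := by
      ext v
      rw [S.mem_R]
      simp only [Finset.mem_sdiff, Finset.mem_univ, true_and, h2 v (Finset.mem_univ _)]
      have := h1 v (Finset.mem_univ _)
      show t v < N ↔ ¬ t v = N
      omega
    rw [this, Finset.card_sdiff_of_subset (Finset.subset_univ _), Finset.card_univ,
      Nat.card_eq_fintype_card]
  have hHE : S.HE ≤ 2 * Nat.card (G.induce (T : Set V)).edgeSet := by
    refine le_trans ?_ (sum_core_le G T)
    unfold Sys.HE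
    have hT : univ.filter (fun y => y ∉ S.R) = T := by
      ext v
      simp only [Finset.mem_filter, Finset.mem_univ, true_and, S.mem_R]
      rw [h2 v (Finset.mem_univ _)]
      have := h1 v (Finset.mem_univ _)
      show ¬ t v < N ↔ t v = N
      omega
    rw [hT]
    apply Finset.sum_le_sum
    intro v hv
    apply Finset.card_le_card
    intro z hz
    rw [S.mem_Np] at hz
    simp only [Finset.mem_filter, Finset.mem_univ, true_and]
    refine ⟨hz.1, ?_⟩
    rw [h2 v (Finset.mem_univ _)] at hv
    rw [h2 z (Finset.mem_univ _)]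
    have h7 := h1 z (Finset.mem_univ _)
    have h8 : t v ≤ t z := hz.2
    omega
  have hmain := S.total
  have h7 := card_edges_le_sum G t
  have h8 : ∑ v : V, #(univ.filter (fun z => G.Adj v z ∧ t v ≤ t z)) = ∑ v : V, #(S.Np v) := rfl
  rw [h8] at h7
  refine h7.trans (hmain.trans ?_)
  rw [hR]
  unfold CK
  show (CC (k - 1) (k - 1) + (k - 1) + 1) * (Nat.card V - #T + S.HE) ≤ _
  calc (CC (k - 1) (k - 1) + (k - 1) + 1) * (Nat.card V - #T + S.HE)
      ≤ (CC (k - 1) (k - 1) + (k - 1) + 1) *
        (2 * ((Nat.card V - #T) + Nat.card (G.induce (T : Set V)).edgeSet)) :=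
        Nat.mul_le_mul_left _ (by omega)
    _ = _ := by ring

/-- every graph folds onto a stiff one -/
theorem exists_stiff (G : SimpleGraph V) : ∀ (m : ℕ) (T₀ : Finset V), #T₀ ≤ m →
    ∃ T, FoldsTo G T₀ T ∧ Stiff (G.induce (T : Set V)) := by
  intro m
  induction m with
  | zero =>
    intro T₀ h
    have : T₀ = ∅ := Finset.card_eq_zero.mp (by omega)
    subst this
    refine ⟨∅, FoldsTo.refl _, ?_⟩
    intro v
    exact absurd v.2 (by simp)
  | succ m ih =>
    intro T₀ h
    by_cases hs : Stiff (G.induce (T₀ : Set V))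
    · exact ⟨T₀, FoldsTo.refl _, hs⟩
    · unfold Stiff at hs
      push Not at hs
      obtain ⟨v, w, hne, hvw⟩ := hs
      obtain ⟨T, h1, h2⟩ := ih (T₀.erase v) (by
        rw [Finset.card_erase_of_mem v.2]; omega)
      refine ⟨T, FoldsTo.step v.2 ⟨w.2, fun h => hne (Subtype.ext h), ?_⟩ h1, h2⟩
      intro y hy hvy hyw
      exact hvw ⟨y, hy⟩ hvy (fun h => hyw (congrArg Subtype.val h))

/-- embedding a graph without `C_{2k}` into a larger vertex set -/
theorem free_map {W : Type} [Fintype V] [Fintype W] (k : ℕ) (hk : 2 ≤ k) (G : SimpleGraph V)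
    (hfree : (SimpleGraph.cycleGraph (2 * k)).Free G) (e : V ↪ W) :
    (SimpleGraph.cycleGraph (2 * k)).Free (G.map e) := by
  rintro ⟨f⟩
  apply hfree
  obtain ⟨n, hn⟩ : ∃ n, 2 * k = n + 2 := ⟨2 * k - 2, by omega⟩
  rw [hn] at f ⊢
  have hr : ∀ i : Fin (n + 2), ∃ v, e v = f i := by
    intro i
    have : (SimpleGraph.cycleGraph (n + 2)).Adj i (i + 1) := by
      rw [SimpleGraph.cycleGraph_adj]
      right
      abel
    have := f.toHom.map_adj this
    rw [SimpleGraph.map_adj] at this
    obtain ⟨u, v, _, h, _⟩ := this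
    exact ⟨u, h⟩
  choose g hg using hr
  refine ⟨⟨⟨g, ?_⟩, ?_⟩⟩
  · intro i j hij
    have := f.toHom.map_adj hij
    rw [SimpleGraph.map_adj] at this
    obtain ⟨u, v, huv, h1, h2⟩ := this
    have e1 : g i = u := e.injective ((hg i).trans h1.symm)
    have e2 : g j = v := e.injective ((hg j).trans h2.symm)
    rw [e1, e2]
    exact huv
  · intro i j hij
    apply f.injective
    exact (hg i).symm.trans ((congrArg e hij).trans (hg j))

end Q116.DE
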