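import Pool.Agent.Q116.DE.Core

/-!
# Dismantling systems: counting lemmas (helper116)

`t v` is the time at which the vertex `v` is removed (`N` if it is never removed), `w v` the vertex
which dominates `v` at that time.
-/

set_option autoImplicit false

open Finset
open scoped Classical

namespace Q116.DE

/-- A graph with a dismantling; `K + 1` is half the length of the forbidden cycle. -/
structure Sys (V : Type) [Fintype V] where
  G : SimpleGraph V
  t : V → ℕ
  w : V → V
  N : ℕ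
  K : ℕ
  ht : ∀ v, t v ≤ N
  hinj : ∀ u v, t u < N → t u = t v → u = v
  hlt : ∀ v, t v < N → t v < t (w v)
  hfix : ∀ v, t v = N → w v = v
  hdom : ∀ v y, t v < N → t v < t y → G.Adj v y → y ≠ w v → G.Adj (w v) y
  hK : 1 ≤ K
  hfree : ¬ HasCyc G (2 * (K + 1))

variable {V : Type} [Fintype V] (S : Sys V)

namespace Sys

/-- the removed vertices -/
noncomputable def R : Finset V := univ.filter (fun v => S.t v < S.N)

/-- neighbours that live at least as long -/
noncomputable def Np (y : V) : Finset V := univ.filter (fun z => S.G.Adj y z ∧ S.t y ≤ S.t z)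

/-- neighbours that live longer and are not on the chain of dominating vertices -/
noncomputable def Fs (v : V) : Finset V :=
  univ.filter (fun y => S.G.Adj v y ∧ S.t v < S.t y ∧ ∀ i, 1 ≤ i → i ≤ S.K → y ≠ S.w^[i] v)

/-- `w^[r] v` is the first vertex of the chain of `v` that lives as long as `y` -/
def cls (v y : V) (r : ℕ) : Prop :=
  1 ≤ r ∧ r ≤ S.K ∧ (∀ i < r, S.t (S.w^[i] v) < S.t y) ∧ S.t y ≤ S.t (S.w^[r] v)

/-- `y` lives longer than the first vertices of the chain of `v` -/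
def tc (v y : V) : Prop := ∀ i ≤ S.K, S.t (S.w^[i] v) < S.t y

theorem mem_R {v : V} : v ∈ S.R ↔ S.t v < S.N := by simp [R]

theorem mem_Np {y z : V} : z ∈ S.Np y ↔ S.G.Adj y z ∧ S.t y ≤ S.t z := by simp [Np]

theorem mem_Fs {v y : V} : y ∈ S.Fs v ↔
    S.G.Adj v y ∧ S.t v < S.t y ∧ ∀ i, 1 ≤ i → i ≤ S.K → y ≠ S.w^[i] v := by simp [Fs]

theorem t_w (v : V) : S.t v ≤ S.t (S.w v) := by
  rcases lt_or_eq_of_le (S.ht v) with h | h
  · exact (S.hlt v h).le
  · rw [S.hfix v h]

theorem t_iter (v : V) (r : ℕ) : S.t v ≤ S.t (S.w^[r] v) := by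
  induction r with
  | zero => simp
  | succ r ih => rw [Function.iterate_succ_apply']; exact ih.trans (S.t_w _)

theorem t_iter_lt {v : V} (hv : v ∈ S.R) {r : ℕ} (hr : 1 ≤ r) : S.t v < S.t (S.w^[r] v) := by
  obtain ⟨r, rfl⟩ : ∃ r', r = r' + 1 := ⟨r - 1, by omega⟩
  rw [Function.iterate_succ_apply]
  exact (S.hlt v (S.mem_R.mp hv)).trans_le (S.t_iter _ _)

theorem t_iter_mono {v : V} {i j : ℕ} (hij : i < j) (h : S.t (S.w^[i] v) < S.N) :
    S.t (S.w^[i] v) < S.t (S.w^[j] v) := by
  obtain ⟨d, rfl⟩ := Nat.exists_eq_add_of_lt hij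
  have : S.w^[i + d + 1] v = S.w^[d + 1] (S.w^[i] v) := by
    rw [← Function.iterate_add_apply]
    congr 1
    omega
  rw [this]
  exact S.t_iter_lt (S.mem_R.mpr h) (by omega)

theorem adj_iter {v y : V} (hy : y ∈ S.Fs v) : ∀ r : ℕ, r ≤ S.K →
    (∀ i < r, S.t (S.w^[i] v) < S.t y) → S.G.Adj (S.w^[r] v) y := by
  intro r
  induction r with
  | zero => intro _ _; exact (S.mem_Fs.mp hy).1
  | succ r ih =>
    intro hr h
    have h1 := ih (by omega) (fun i hi => h i (by omega))
    rw [Function.iterate_succ_apply']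
    have h2 := h r (by omega)
    apply S.hdom _ _ (h2.trans_le (S.ht y)) h2 h1
    have := (S.mem_Fs.mp hy).2.2 (r + 1) (by omega) hr
    rwa [Function.iterate_succ_apply'] at this

theorem cls_or_tc {v y : V} (hy : S.t v < S.t y) : S.tc v y ∨ ∃ r, S.cls v y r := by
  by_cases h : S.tc v y
  · exact Or.inl h
  · right
    unfold tc at h
    push Not at h
    obtain ⟨r, hr, h1⟩ := h
    have hex : ∃ r, r ≤ S.K ∧ S.t y ≤ S.t (S.w^[r] v) := ⟨r, hr, h1⟩
    refine ⟨Nat.find hex, ?_, (Nat.find_spec hex).1, ?_, (Nat.find_spec hex).2⟩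
    · rw [Nat.one_le_iff_ne_zero]
      intro h0
      have := (Nat.find_spec hex).2
      rw [h0] at this
      simp at this
      omega
    · intro i hi
      have := Nat.find_min hex hi
      push Not at this
      exact this (by have := (Nat.find_spec hex).1; omega)

theorem cls_adj {v y : V} {r : ℕ} (hy : y ∈ S.Fs v) (h : S.cls v y r) : S.G.Adj (S.w^[r] v) y :=
  S.adj_iter hy r h.2.1 h.2.2.1

theorem card_tc {v : V} : #((S.Fs v).filter (fun y => S.tc v y)) ≤ S.K := by
  by_contra hcon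
  push Not at hcon
  obtain ⟨T, hT, hTc⟩ := Finset.exists_subset_card_eq (n := S.K + 1) (by omega :
    S.K + 1 ≤ #((S.Fs v).filter (fun y => S.tc v y)))
  have hTne : T.Nonempty := Finset.card_pos.mp (by omega)
  obtain ⟨y₀, hy₀⟩ := hTne
  have hy₀' := (Finset.mem_filter.mp (hT hy₀)).2
  apply S.hfree
  apply hasCyc_of_biclique S.G (S.K + 1) (by omega) ((List.range (S.K + 1)).map (fun i => S.w^[i] v))
    T.toList (by simp) (by simp [hTc]) ?_ (Finset.nodup_toList T) ?_
  · apply List.Nodup.map_on _ List.nodup_range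
    intro i hi j hj hij
    by_contra hne
    simp only [List.mem_range] at hi hj
    rcases Nat.lt_or_gt_of_ne hne with h | h
    · have := S.t_iter_mono h ((hy₀' i (by omega)).trans_le (S.ht y₀))
      rw [hij] at this
      exact lt_irrefl _ this
    · have := S.t_iter_mono h ((hy₀' j (by omega)).trans_le (S.ht y₀))
      rw [hij] at this
      exact lt_irrefl _ this
  · intro x hx y hy
    obtain ⟨i, hi, rfl⟩ := List.mem_map.mp hx
    simp only [List.mem_range] at hi
    have hy' := Finset.mem_filter.mp (hT (Finset.mem_toList.mp hy))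
    exact S.adj_iter hy'.1 i (by omega) (fun j hj => hy'.2 j (by omega))

/-- sums over the fibres -/
theorem sum_fiber_le (A : Finset V) (f : V → V) :
    ∑ z : V, #(A.filter (fun v => f v = z)) = #A := by
  have := Finset.card_eq_sum_card_fiberwise (f := f) (s := A) (t := univ) (by intro x _; simp)
  rw [this]

theorem lemmaA_class (B : Finset V) (r : ℕ) (hr : 1 ≤ r) :
    #((S.R ×ˢ B).filter (fun p => p.2 ∈ S.Fs p.1 ∧ S.cls p.1 p.2 r)) ≤
      2 * (S.K + 1) * (#S.R + ∑ y ∈ B, #(S.Np y)) := by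
  set E := (S.R ×ˢ B).filter (fun p => p.2 ∈ S.Fs p.1 ∧ S.cls p.1 p.2 r) with hE
  have h1 : #E = ∑ z : V, #(E.filter (fun p => S.w^[r] p.1 = z)) :=
    Finset.card_eq_sum_card_fiberwise (f := fun p : V × V => S.w^[r] p.1) (s := E) (t := univ)
      (by intro x _; simp)
  have h2 : ∀ z : V, #(E.filter (fun p => S.w^[r] p.1 = z)) ≤
      2 * (S.K + 1) * (#(S.R.filter (fun v => S.w^[r] v = z)) + #(B.filter (fun y => z ∈ S.Np y))) := by
    intro z
    set Ez := E.filter (fun p => S.w^[r] p.1 = z) with hEz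
    have hmem : ∀ p ∈ Ez, p.1 ∈ S.R ∧ p.2 ∈ B ∧ p.2 ∈ S.Fs p.1 ∧ S.cls p.1 p.2 r ∧
        S.w^[r] p.1 = z := by
      intro p hp
      rw [hEz, hE] at hp
      simp only [Finset.mem_filter, Finset.mem_product] at hp
      tauto
    have hf : fsts Ez ⊆ S.R.filter (fun v => S.w^[r] v = z) := by
      intro v hv
      obtain ⟨p, hp, rfl⟩ := Finset.mem_image.mp hv
      obtain ⟨a, b, c, d, e⟩ := hmem p hp
      exact Finset.mem_filter.mpr ⟨a, e⟩
    have hadj : ∀ p ∈ Ez, S.G.Adj z p.2 := by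
      intro p hp
      obtain ⟨a, b, c, d, e⟩ := hmem p hp
      rw [← e]
      exact S.cls_adj c d
    have hs : snds Ez ⊆ B.filter (fun y => z ∈ S.Np y) := by
      intro v hv
      obtain ⟨p, hp, rfl⟩ := Finset.mem_image.mp hv
      obtain ⟨a, b, c, d, e⟩ := hmem p hp
      refine Finset.mem_filter.mpr ⟨b, S.mem_Np.mpr ⟨(hadj p hp).symm, ?_⟩⟩
      rw [← e]
      exact d.2.2.2
    have hle : #Ez ≤ 2 * (S.K + 1) * (#(fsts Ez) + #(snds Ez)) := by
      by_contra hcon
      push Not at hcon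
      obtain ⟨y, T, b, l, h3, h4, h5, h6, h7, h8, h9⟩ := exists_alt S.G (2 * (S.K + 1)) Ez
        (fun p hp => by
          obtain ⟨a, b, c, d, e⟩ := hmem p hp
          exact (S.mem_Fs.mp c).1) hcon (S.K + 1) (by omega) le_rfl
      apply S.hfree
      have hzy : ∀ x ∈ snds Ez, S.G.Adj z x := by
        intro x hx
        obtain ⟨p, hp, rfl⟩ := Finset.mem_image.mp hx
        exact hadj p hp
      refine ⟨z, b, l, ?_, ?_, ?_, (hzy b h8).symm⟩
      · rw [← h3]
        simp only [List.length_cons] at h4 ⊢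
        omega
      · rw [← h3]
        refine List.nodup_cons.mpr ⟨?_, h5⟩
        intro hz
        rcases h9 z hz with h | h
        · obtain ⟨p, hp, hpz⟩ := Finset.mem_image.mp h
          obtain ⟨a, b, c, d, e⟩ := hmem p hp
          have := S.t_iter_lt a hr
          rw [e, hpz] at this
          exact lt_irrefl _ this
        · exact (hzy z h).ne rfl
      · rw [← h3]
        exact List.IsChain.cons_cons (hzy y h7) h6
    refine hle.trans (Nat.mul_le_mul_left _ (Nat.add_le_add (Finset.card_le_card hf)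
      (Finset.card_le_card hs)))
  rw [h1]
  refine (Finset.sum_le_sum (fun z _ => h2 z)).trans ?_
  rw [← Finset.mul_sum, Finset.sum_add_distrib]
  apply Nat.mul_le_mul_left
  apply Nat.add_le_add
  · rw [sum_fiber_le]
  · simp_rw [Finset.card_filter]
    rw [Finset.sum_comm]
    apply Finset.sum_le_sum
    intro y _
    rw [← Finset.card_filter]
    apply Finset.card_le_card
    intro z hz
    simpa using hz

theorem lemmaA (B : Finset V) :
    ∑ v ∈ S.R, #((S.Fs v).filter (fun y => y ∈ B)) ≤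
      (S.K * (2 * (S.K + 1)) + S.K) * (#S.R + ∑ y ∈ B, #(S.Np y)) := by
  have h1 : ∀ v ∈ S.R, #((S.Fs v).filter (fun y => y ∈ B)) ≤
      #((S.Fs v).filter (fun y => S.tc v y)) +
        ∑ r ∈ Finset.Icc 1 S.K, #((S.Fs v).filter (fun y => y ∈ B ∧ S.cls v y r)) := by
    intro v _
    have : (S.Fs v).filter (fun y => y ∈ B) ⊆ (S.Fs v).filter (fun y => S.tc v y) ∪
        (Finset.Icc 1 S.K).biUnion (fun r => (S.Fs v).filter (fun y => y ∈ B ∧ S.cls v y r)) := by
      intro y hy
      rw [Finset.mem_filter] at hy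
      rcases S.cls_or_tc (S.mem_Fs.mp hy.1).2.1 with h | ⟨r, h⟩
      · exact Finset.mem_union_left _ (Finset.mem_filter.mpr ⟨hy.1, h⟩)
      · refine Finset.mem_union_right _ (Finset.mem_biUnion.mpr ⟨r, ?_, ?_⟩)
        · exact Finset.mem_Icc.mpr ⟨h.1, h.2.1⟩
        · exact Finset.mem_filter.mpr ⟨hy.1, hy.2, h⟩
    refine (Finset.card_le_card this).trans ((Finset.card_union_le _ _).trans ?_)
    exact Nat.add_le_add_left Finset.card_biUnion_le _
  refine (Finset.sum_le_sum h1).trans ?_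
  rw [Finset.sum_add_distrib, Finset.sum_comm]
  have h2 : ∑ v ∈ S.R, #((S.Fs v).filter (fun y => S.tc v y)) ≤ #S.R * S.K :=
    Finset.sum_le_card_nsmul _ _ _ (fun v _ => S.card_tc)
  have h3 : ∑ r ∈ Finset.Icc 1 S.K, ∑ v ∈ S.R, #((S.Fs v).filter (fun y => y ∈ B ∧ S.cls v y r)) ≤
      S.K * (2 * (S.K + 1) * (#S.R + ∑ y ∈ B, #(S.Np y))) := by
    have h4 : ∀ r ∈ Finset.Icc 1 S.K, ∑ v ∈ S.R, #((S.Fs v).filter (fun y => y ∈ B ∧ S.cls v y r)) ≤
        2 * (S.K + 1) * (#S.R + ∑ y ∈ B, #(S.Np y)) := by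
      intro r hr
      refine le_trans (le_of_eq ?_) (S.lemmaA_class B r (Finset.mem_Icc.mp hr).1)
      rw [Finset.card_filter, Finset.sum_product]
      apply Finset.sum_congr rfl
      intro v _
      rw [← Finset.card_filter]
      congr 1
      ext y
      simp only [Finset.mem_filter]
      tauto
    refine (Finset.sum_le_card_nsmul _ _ _ h4).trans ?_
    simp
  calc _ ≤ #S.R * S.K + S.K * (2 * (S.K + 1) * (#S.R + ∑ y ∈ B, #(S.Np y))) := Nat.add_le_add h2 h3
    _ ≤ _ := by nlinarith [Nat.zero_le (∑ y ∈ B, #(S.Np y)), Nat.zero_le S.K]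

/-! ### clustered edges -/

/-- `y` has at least `M` surviving neighbours in common with `w^[r] y` -/
def Eff (M r : ℕ) (y : V) : Prop := M ≤ #((S.Np y).filter (fun x => S.G.Adj x (S.w^[r] y)))

/-- the edge from `v` to `y` is clustered -/
def clus (M D' : ℕ) (v y : V) : Prop :=
  ∃ r, 1 ≤ r ∧ r ≤ S.K ∧ S.Eff M r y ∧
    D' ≤ #((S.Fs v).filter (fun y' => y' ∈ S.R ∧ S.Eff M r y' ∧ S.w^[r] y' = S.w^[r] y))

theorem lemmaB_class (M : ℕ) (hM : 2 * S.K + 1 ≤ M) (r : ℕ) (hr : 1 ≤ r) (z : V) (V' : Finset V)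
    (hV' : ∀ v ∈ V', v ∈ S.R)
    (hV'' : ∀ v ∈ V', 4 * (S.K + 1) ≤ #((S.Fs v).filter (fun y => y ∈ S.R ∧ S.Eff M r y ∧ S.w^[r] y = z))) :
    ∑ v ∈ V', #((S.Fs v).filter (fun y => y ∈ S.R ∧ S.Eff M r y ∧ S.w^[r] y = z)) ≤
      4 * (S.K + 1) * #(S.R.filter (fun y => S.w^[r] y = z)) := by
  set E : Finset (V × V) := (V' ×ˢ S.R).filter
    (fun p => p.2 ∈ S.Fs p.1 ∧ S.Eff M r p.2 ∧ S.w^[r] p.2 = z) with hE
  have hcard : ∑ v ∈ V', #((S.Fs v).filter (fun y => y ∈ S.R ∧ S.Eff M r y ∧ S.w^[r] y = z)) = #E := by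
    rw [hE, Finset.card_filter, Finset.sum_product]
    apply Finset.sum_congr rfl
    intro v _
    rw [← Finset.card_filter]
    congr 1
    ext y
    simp only [Finset.mem_filter]
    tauto
  have hmem : ∀ p ∈ E, p.1 ∈ V' ∧ p.2 ∈ S.R ∧ p.2 ∈ S.Fs p.1 ∧ S.Eff M r p.2 ∧ S.w^[r] p.2 = z := by
    intro p hp
    rw [hE] at hp
    simp only [Finset.mem_filter, Finset.mem_product] at hp
    tauto
  have hf : #(fsts E) ≤ #V' := by
    apply Finset.card_le_card
    intro v hv
    obtain ⟨p, hp, rfl⟩ := Finset.mem_image.mp hv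
    exact (hmem p hp).1
  have hs : #(snds E) ≤ #(S.R.filter (fun y => S.w^[r] y = z)) := by
    apply Finset.card_le_card
    intro v hv
    obtain ⟨p, hp, rfl⟩ := Finset.mem_image.mp hv
    exact Finset.mem_filter.mpr ⟨(hmem p hp).2.1, (hmem p hp).2.2.2.2⟩
  have hge : #V' * (4 * (S.K + 1)) ≤ #E := by
    rw [← hcard]
    exact Finset.card_nsmul_le_sum _ _ _ hV''
  have hle : #E ≤ 2 * (S.K + 1) * (#(fsts E) + #(snds E)) := by
    by_contra hcon
    push Not at hcon
    obtain ⟨y, T, b, l, h3, h4, h5, h6, h7, h8, h9⟩ := exists_alt S.G (2 * (S.K + 1)) E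
      (fun p hp => (S.mem_Fs.mp (hmem p hp).2.2.1).1) hcon S.K S.hK (by omega)
    have hEff : ∀ x ∈ snds E, M ≤ #((S.Np x).filter (fun x' => S.G.Adj x' z)) := by
      intro x hx
      obtain ⟨p, hp, rfl⟩ := Finset.mem_image.mp hx
      have := (hmem p hp).2.2.2.1
      unfold Eff at this
      rwa [(hmem p hp).2.2.2.2] at this
    have hpick : ∀ x ∈ snds E, ∀ L : List V, L.length < M →
        ∃ f, f ∉ L ∧ S.G.Adj x f ∧ S.G.Adj f z := by
      intro x hx L hL
      by_contra hcon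
      push Not at hcon
      have : (S.Np x).filter (fun x' => S.G.Adj x' z) ⊆ L.toFinset := by
        intro f hf
        rw [Finset.mem_filter] at hf
        rw [List.mem_toFinset]
        by_contra hfL
        exact hcon f hfL (S.mem_Np.mp hf.1).1 hf.2
      have h1 := Finset.card_le_card this
      have h2 := List.toFinset_card_le L
      have h3 := hEff x hx
      omega
    obtain ⟨f, hfL, hyf, hfz⟩ := hpick y h7 (y :: T) (by omega)
    obtain ⟨f', hfL', hbf', hfz'⟩ := hpick b h8 (f :: y :: T) (by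
      simp only [List.length_cons] at h4 ⊢; omega)
    apply S.hfree
    refine ⟨z, f', f :: (y :: T), ?_, ?_, ?_, hfz'⟩
    · simp only [List.length_cons, List.length_append, List.length_nil] at h4 ⊢
      have := S.hK
      omega
    · have hzf : z ≠ f := hfz.ne'
      have hzf' : z ≠ f' := hfz'.ne'
      have hzT : z ∉ y :: T := by
        intro hz
        rcases h9 z hz with h | h
        · obtain ⟨p, hp, hpz⟩ := Finset.mem_image.mp h
          have h10 := (S.mem_Fs.mp (hmem p hp).2.2.1).2.1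
          have h11 := S.t_iter p.2 r
          rw [(hmem p hp).2.2.2.2, ← hpz] at h11
          omega
        · obtain ⟨p, hp, hpz⟩ := Finset.mem_image.mp h
          have h11 := S.t_iter_lt (hmem p hp).2.1 hr
          rw [(hmem p hp).2.2.2.2, hpz] at h11
          exact lt_irrefl _ h11
      have e : z :: (f :: (y :: T) ++ [f']) = (z :: (f :: y :: T)) ++ [f'] := rfl
      rw [e, List.nodup_append]
      refine ⟨?_, by simp, ?_⟩
      · refine List.nodup_cons.mpr ⟨?_, List.nodup_cons.mpr ⟨hfL, h5⟩⟩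
        intro h
        rcases List.mem_cons.mp h with h | h
        · exact hzf h
        · exact hzT h
      · intro x hx x' hx'
        rw [List.mem_singleton] at hx'
        subst hx'
        rcases List.mem_cons.mp hx with rfl | hx
        · exact hzf'
        · rintro rfl
          exact hfL' hx
    · rw [h3]
      have e : z :: (f :: (l ++ [b]) ++ [f']) = (z :: f :: (l ++ [b])) ++ [f'] := rfl
      rw [e]
      apply List.IsChain.append
      · rw [← h3]
        exact List.IsChain.cons_cons hfz.symm (List.IsChain.cons_cons hyf.symm h6)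
      · simp
      · intro x hx x' hx'
        have hx1 : x = b := by
          have : (z :: f :: (l ++ [b])).getLast? = some b := by
            rw [show z :: f :: (l ++ [b]) = (z :: f :: l) ++ [b] from rfl, List.getLast?_append]
            simp
          rw [this] at hx
          simpa using hx.symm
        simp at hx'
        rw [hx1, ← hx']
        exact hbf'
  rw [hcard]
  have h5 : 2 * (S.K + 1) * #(fsts E) * 2 ≤ #E := by
    calc _ = #(fsts E) * (4 * (S.K + 1)) := by ring
      _ ≤ #V' * (4 * (S.K + 1)) := Nat.mul_le_mul_right _ hf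
      _ ≤ _ := hge
  have h6 : 2 * (S.K + 1) * (#(fsts E) + #(snds E)) ≤ 2 * (S.K + 1) * #(fsts E) +
      2 * (S.K + 1) * #(S.R.filter (fun y => S.w^[r] y = z)) := by
    rw [← mul_add]
    exact Nat.mul_le_mul_left _ (Nat.add_le_add_left hs _)
  have h7 : 4 * (S.K + 1) * #(S.R.filter (fun y => S.w^[r] y = z)) =
    2 * (2 * (S.K + 1) * #(S.R.filter (fun y => S.w^[r] y = z))) := by ring
  omega

theorem lemmaB (M : ℕ) (hM : 2 * S.K + 1 ≤ M) :
    ∑ v ∈ S.R, #((S.Fs v).filter (fun y => y ∈ S.R ∧ S.clus M (4 * (S.K + 1)) v y)) ≤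
      S.K * (4 * (S.K + 1)) * #S.R := by
  have h1 : ∀ v ∈ S.R, #((S.Fs v).filter (fun y => y ∈ S.R ∧ S.clus M (4 * (S.K + 1)) v y)) ≤
      ∑ r ∈ Finset.Icc 1 S.K, ∑ z : V,
        if 4 * (S.K + 1) ≤ #((S.Fs v).filter (fun y => y ∈ S.R ∧ S.Eff M r y ∧ S.w^[r] y = z)) then
          #((S.Fs v).filter (fun y => y ∈ S.R ∧ S.Eff M r y ∧ S.w^[r] y = z)) else 0 := by
    intro v _
    have hsub : (S.Fs v).filter (fun y => y ∈ S.R ∧ S.clus M (4 * (S.K + 1)) v y) ⊆
        (Finset.Icc 1 S.K).biUnion (fun r => (univ : Finset V).biUnion (fun z =>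
          if 4 * (S.K + 1) ≤ #((S.Fs v).filter (fun y => y ∈ S.R ∧ S.Eff M r y ∧ S.w^[r] y = z)) then
          (S.Fs v).filter (fun y => y ∈ S.R ∧ S.Eff M r y ∧ S.w^[r] y = z) else ∅)) := by
      intro y hy
      rw [Finset.mem_filter] at hy
      obtain ⟨hy1, hy2, r, hr1, hr2, hr3, hr4⟩ := hy
      refine Finset.mem_biUnion.mpr ⟨r, Finset.mem_Icc.mpr ⟨hr1, hr2⟩,
        Finset.mem_biUnion.mpr ⟨S.w^[r] y, Finset.mem_univ _, ?_⟩⟩
      rw [if_pos hr4]
      exact Finset.mem_filter.mpr ⟨hy1, hy2, hr3, rfl⟩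
    refine (Finset.card_le_card hsub).trans (Finset.card_biUnion_le.trans ?_)
    apply Finset.sum_le_sum
    intro r _
    refine Finset.card_biUnion_le.trans ?_
    apply Finset.sum_le_sum
    intro z _
    split_ifs <;> simp
  refine (Finset.sum_le_sum h1).trans ?_
  rw [Finset.sum_comm]
  have h2 : ∀ r ∈ Finset.Icc 1 S.K, ∑ v ∈ S.R, ∑ z : V,
        (if 4 * (S.K + 1) ≤ #((S.Fs v).filter (fun y => y ∈ S.R ∧ S.Eff M r y ∧ S.w^[r] y = z)) then
          #((S.Fs v).filter (fun y => y ∈ S.R ∧ S.Eff M r y ∧ S.w^[r] y = z)) else 0) ≤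
        4 * (S.K + 1) * #S.R := by
    intro r hr
    rw [Finset.sum_comm]
    have h3 : ∀ z : V, ∑ v ∈ S.R,
        (if 4 * (S.K + 1) ≤ #((S.Fs v).filter (fun y => y ∈ S.R ∧ S.Eff M r y ∧ S.w^[r] y = z)) then
          #((S.Fs v).filter (fun y => y ∈ S.R ∧ S.Eff M r y ∧ S.w^[r] y = z)) else 0) ≤
        4 * (S.K + 1) * #(S.R.filter (fun y => S.w^[r] y = z)) := by
      intro z
      rw [← Finset.sum_filter]
      exact S.lemmaB_class M hM r (Finset.mem_Icc.mp hr).1 z _
        (fun v hv => (Finset.mem_filter.mp hv).1) (fun v hv => (Finset.mem_filter.mp hv).2)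
    refine (Finset.sum_le_sum (fun z _ => h3 z)).trans ?_
    rw [← Finset.mul_sum, sum_fiber_le]
  refine (Finset.sum_le_card_nsmul _ _ _ h2).trans ?_
  simp [mul_assoc]

end Sys

end Q116.DE
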