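import Pool.Agent.Q116.DE.Lem

/-!
# Dismantling systems: the chain of rich vertices (helper116)
-/

set_option autoImplicit false

open Finset
open scoped Classical

namespace Q116.DE

variable {V : Type} [Fintype V] (S : Sys V)

namespace Sys

/-- constants depending on `K` -/
def MM (K : ℕ) : ℕ := 2 * K + 8
def DD (K : ℕ) : ℕ := K * ((2 * K + 8) * (1 + K * (4 * (K + 1))) + MM K + 1)

/-- rich vertices -/
def Rich : ℕ → V → Prop
  | 0, v => v ∈ S.R
  | ℓ + 1, v => v ∈ S.R ∧ DD S.K ≤ #((S.Fs v).filter (fun u => Rich ℓ u ∧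
      ¬ S.clus (MM S.K) (4 * (S.K + 1)) v u ∧ ¬ S.tc v u))

theorem rich_R {ℓ : ℕ} {v : V} (h : S.Rich ℓ v) : v ∈ S.R := by
  cases ℓ with
  | zero => exact h
  | succ ℓ => exact h.1

theorem Fs_sub_Np (v : V) : S.Fs v ⊆ S.Np v := by
  intro y hy
  rw [S.mem_Fs] at hy
  exact S.mem_Np.mpr ⟨hy.1, hy.2.1.le⟩

/-- a class of rich forward neighbours -/
theorem exists_class {ℓ : ℕ} {v : V} (h : S.Rich (ℓ + 1) v) :
    ∃ (r : ℕ) (Y : Finset V), 1 ≤ r ∧ r ≤ S.K ∧ Y ⊆ S.Fs v ∧
      (2 * S.K + 8) * (1 + S.K * (4 * (S.K + 1))) + MM S.K < #Y ∧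
      ∀ u ∈ Y, S.Rich ℓ u ∧ ¬ S.clus (MM S.K) (4 * (S.K + 1)) v u ∧ S.cls v u r := by
  obtain ⟨hv, hD⟩ := h
  set Gd := (S.Fs v).filter (fun u => S.Rich ℓ u ∧
      ¬ S.clus (MM S.K) (4 * (S.K + 1)) v u ∧ ¬ S.tc v u) with hGd
  by_contra hcon
  push Not at hcon
  have hsub : Gd ⊆ (Finset.Icc 1 S.K).biUnion (fun r => Gd.filter (fun u => S.cls v u r)) := by
    intro u hu
    have hu' := Finset.mem_filter.mp hu
    rcases S.cls_or_tc (S.mem_Fs.mp hu'.1).2.1 with h | ⟨r, h⟩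
    · exact absurd h hu'.2.2.2
    · exact Finset.mem_biUnion.mpr ⟨r, Finset.mem_Icc.mpr ⟨h.1, h.2.1⟩, Finset.mem_filter.mpr ⟨hu, h⟩⟩
  have h1 : ∀ r ∈ Finset.Icc 1 S.K, #(Gd.filter (fun u => S.cls v u r)) ≤
      (2 * S.K + 8) * (1 + S.K * (4 * (S.K + 1))) + MM S.K := by
    intro r hr
    by_contra hlt
    push Not at hlt
    obtain ⟨u, hu, h2⟩ := hcon r (Gd.filter (fun u => S.cls v u r)) (Finset.mem_Icc.mp hr).1
      (Finset.mem_Icc.mp hr).2 (by
        intro u hu
        exact (Finset.mem_filter.mp (Finset.mem_filter.mp hu).1).1) hlt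
    have hu1 := Finset.mem_filter.mp hu
    have hu2 := Finset.mem_filter.mp hu1.1
    exact h2 hu2.2.1 hu2.2.2.1 hu1.2
  have h2 := (Finset.card_le_card hsub).trans (Finset.card_biUnion_le.trans
    (Finset.sum_le_card_nsmul _ _ _ h1))
  simp only [Nat.card_Icc, smul_eq_mul, Nat.add_sub_cancel] at h2
  have h3 : DD S.K ≤ S.K * ((2 * S.K + 8) * (1 + S.K * (4 * (S.K + 1))) + MM S.K) := hD.trans h2
  unfold DD at h3
  have hK := S.hK
  have h4 := Nat.le_of_mul_le_mul_left h3 (by omega)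
  omega

/-- choice of a good vertex -/
theorem pick {v : V} (Y : Finset V) (hY : Y ⊆ S.Fs v)
    (hYR : ∀ u ∈ Y, u ∈ S.R ∧ ¬ S.clus (MM S.K) (4 * (S.K + 1)) v u) (U : List V)
    (hU : U.length * (1 + S.K * (4 * (S.K + 1))) < #Y) :
    ∃ u ∈ Y, u ∉ U ∧ ∀ r, 1 ≤ r → r ≤ S.K → S.Eff (MM S.K) r u → S.w^[r] u ∉ U := by
  by_contra hcon
  push Not at hcon
  have hsub : Y ⊆ U.toFinset ∪ U.toFinset.biUnion (fun z => (Finset.Icc 1 S.K).biUnion
      (fun r => Y.filter (fun u => S.Eff (MM S.K) r u ∧ S.w^[r] u = z))) := by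
    intro u hu
    by_cases h : u ∈ U
    · exact Finset.mem_union_left _ (List.mem_toFinset.mpr h)
    · obtain ⟨r, h1, h2, h3, h4⟩ := hcon u hu h
      refine Finset.mem_union_right _ (Finset.mem_biUnion.mpr ⟨S.w^[r] u, List.mem_toFinset.mpr h4,
        Finset.mem_biUnion.mpr ⟨r, Finset.mem_Icc.mpr ⟨h1, h2⟩, Finset.mem_filter.mpr ⟨hu, h3, rfl⟩⟩⟩)
  have h1 : ∀ z ∈ U.toFinset, #((Finset.Icc 1 S.K).biUnion
      (fun r => Y.filter (fun u => S.Eff (MM S.K) r u ∧ S.w^[r] u = z))) ≤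
      S.K * (4 * (S.K + 1)) := by
    intro z _
    refine Finset.card_biUnion_le.trans ?_
    have h2 : ∀ r ∈ Finset.Icc 1 S.K, #(Y.filter (fun u => S.Eff (MM S.K) r u ∧ S.w^[r] u = z)) ≤
        4 * (S.K + 1) := by
      intro r hr
      rcases (Y.filter (fun u => S.Eff (MM S.K) r u ∧ S.w^[r] u = z)).eq_empty_or_nonempty with h | h
      · rw [h]; simp
      · obtain ⟨u, hu⟩ := h
        have hu' := Finset.mem_filter.mp hu
        have h3 := (hYR u hu'.1).2
        unfold clus at h3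
        push Not at h3
        have h4 := h3 r (Finset.mem_Icc.mp hr).1 (Finset.mem_Icc.mp hr).2 hu'.2.1
        refine le_trans (Finset.card_le_card ?_) h4.le
        intro u' hu''
        have h5 := Finset.mem_filter.mp hu''
        exact Finset.mem_filter.mpr ⟨hY h5.1, (hYR u' h5.1).1, h5.2.1, h5.2.2.trans hu'.2.2.symm⟩
    refine (Finset.sum_le_card_nsmul _ _ _ h2).trans ?_
    simp
  have h2 := Finset.card_le_card hsub
  have h3 := h2.trans ((Finset.card_union_le _ _).trans (Nat.add_le_add_left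
    (Finset.card_biUnion_le.trans (Finset.sum_le_card_nsmul _ _ _ h1)) _))
  have h4 := List.toFinset_card_le U
  simp only [smul_eq_mul] at h3
  have h5 : #U.toFinset + #U.toFinset * (S.K * (4 * (S.K + 1))) ≤
      U.length * (1 + S.K * (4 * (S.K + 1))) := by
    calc _ = #U.toFinset * (1 + S.K * (4 * (S.K + 1))) := by ring
      _ ≤ _ := Nat.mul_le_mul_right _ h4
  omega

/-- simple choice -/
theorem pick' (Y : Finset V) (U : List V) (hU : U.length < #Y) : ∃ u ∈ Y, u ∉ U := by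
  by_contra hcon
  push Not at hcon
  have : Y ⊆ U.toFinset := fun u hu => List.mem_toFinset.mpr (hcon u hu)
  have h1 := Finset.card_le_card this
  have h2 := List.toFinset_card_le U
  omega

/-- a path of `c` vertices from `z` to the rich vertex `v`, which is adjacent to `z` -/
def State (c ℓ : ℕ) : Prop :=
  ∃ (z : V) (l : List V) (v : V), (z :: (l ++ [v])).length = c ∧ (z :: (l ++ [v])).Nodup ∧
    (z :: (l ++ [v])).IsChain S.G.Adj ∧ S.G.Adj v z ∧ S.t v ≤ S.t z ∧ S.Rich ℓ v ∧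
    ∀ r, 1 ≤ r → r ≤ S.K → S.Eff (MM S.K) r v → S.w^[r] v ∉ z :: (l ++ [v])

theorem chain_snoc {G : SimpleGraph V} {L : List V} {b x : V} (h : (L ++ [b]).IsChain G.Adj)
    (hx : G.Adj b x) : (L ++ [b] ++ [x]).IsChain G.Adj := by
  apply List.IsChain.append h (by simp)
  intro y hy y' hy'
  rw [List.getLast?_append] at hy
  simp at hy hy'
  rw [← hy, ← hy']
  exact hx

theorem nodup_snoc {L : List V} {x : V} (h : L.Nodup) (hx : x ∉ L) : (L ++ [x]).Nodup := by
  rw [List.nodup_append]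
  refine ⟨h, by simp, ?_⟩
  intro a ha b hb
  rw [List.mem_singleton] at hb
  subst hb
  rintro rfl
  exact hx ha

/-- facts about a class -/
theorem class_facts {ℓ : ℕ} {v : V} (hv : v ∈ S.R) {r : ℕ} {Y : Finset V} (hr : 1 ≤ r)
    (hYF : Y ⊆ S.Fs v)
    (hcard : (2 * S.K + 8) * (1 + S.K * (4 * (S.K + 1))) + MM S.K < #Y)
    (hY : ∀ u ∈ Y, S.Rich ℓ u ∧ ¬ S.clus (MM S.K) (4 * (S.K + 1)) v u ∧ S.cls v u r) :
    (∀ i ≤ r, ∀ u ∈ Y, S.G.Adj (S.w^[i] v) u) ∧ (∀ i, 1 ≤ i → i ≤ r → S.Eff (MM S.K) i v) ∧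
    (∀ i < r, S.t (S.w^[i] v) < S.t (S.w^[r] v)) := by
  have h1 : ∀ i ≤ r, ∀ u ∈ Y, S.G.Adj (S.w^[i] v) u := by
    intro i hi u hu
    obtain ⟨_, _, h⟩ := hY u hu
    exact S.adj_iter (hYF hu) i (hi.trans h.2.1) (fun j hj => h.2.2.1 j (by omega))
  refine ⟨h1, ?_, ?_⟩
  · intro i hi hir
    unfold Eff
    have : Y ⊆ (S.Np v).filter (fun x => S.G.Adj x (S.w^[i] v)) := fun u hu =>
      Finset.mem_filter.mpr ⟨S.Fs_sub_Np v (hYF hu), (h1 i hir u hu).symm⟩
    have := Finset.card_le_card this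
    omega
  · intro i hi
    obtain ⟨u, hu⟩ : Y.Nonempty := Finset.card_pos.mp (by omega)
    obtain ⟨_, _, h⟩ := hY u hu
    exact (h.2.2.1 i hi).trans_le h.2.2.2

theorem state_cyc : ∀ (ℓ c : ℕ), S.State c ℓ → Even c → c ≤ 2 * (S.K + 1) →
    2 * (S.K + 1) ≤ c + 2 * ℓ → False := by
  intro ℓ
  induction ℓ with
  | zero =>
    rintro c ⟨z, l, v, h1, h2, h3, h4, -⟩ _ hc1 hc2
    apply S.hfree
    exact ⟨z, v, l, by omega, h2, h3, h4⟩
  | succ ℓ ih =>
    rintro c ⟨z, l, v, h1, h2, h3, h4, h5, h6, h7⟩ hev hc1 hc2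
    have hc : c = 2 * (S.K + 1) ∨ c + 2 ≤ 2 * (S.K + 1) := by
      obtain ⟨c', rfl⟩ := hev
      omega
    rcases hc with hc | hc
    · exact S.hfree ⟨z, v, l, by omega, h2, h3, h4⟩
    have hvR := S.rich_R h6
    obtain ⟨r, Y, hr1, hr2, hYF, hYc, hY⟩ := S.exists_class h6
    obtain ⟨hadj, heff, htime⟩ := S.class_facts hvR hr1 hYF hYc hY
    have hYR : ∀ u ∈ Y, u ∈ S.R ∧ ¬ S.clus (MM S.K) (4 * (S.K + 1)) v u := fun u hu =>
      ⟨S.rich_R (hY u hu).1, (hY u hu).2.1⟩
    set Q := z :: (l ++ [v]) with hQ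
    have hwQ : S.w v ∉ Q := h7 1 le_rfl (by omega) (heff 1 le_rfl hr1)
    have hzQ : S.w^[r] v ∉ Q := h7 r hr1 hr2 (heff r hr1 le_rfl)
    have htvz : S.t v < S.t z := by
      rcases lt_or_eq_of_le h5 with h | h
      · exact h
      · exact absurd (S.hinj v z (S.mem_R.mp hvR) h) h4.ne
    have hwz : S.G.Adj (S.w v) z := by
      apply S.hdom v z (S.mem_R.mp hvR) htvz h4
      rintro rfl
      exact hwQ (by simp [hQ])
    have hlen : Q.length ≤ 2 * S.K := by omega
    have hA : (2 * S.K + 8) ≤ (2 * S.K + 8) * (1 + S.K * (4 * (S.K + 1))) :=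
      Nat.le_mul_of_pos_right _ (by omega)
    have hwv : ∀ u ∈ Y, S.G.Adj (S.w v) u := fun u hu => hadj 1 hr1 u hu
    have hchQ : ∀ x, S.G.Adj v x → (Q ++ [x]).IsChain S.G.Adj := by
      intro x hx
      have : Q = (z :: l) ++ [v] := rfl
      rw [this] at h3 ⊢
      exact chain_snoc h3 hx
    rcases (by obtain ⟨c', rfl⟩ := hev; omega : c + 2 = 2 * (S.K + 1) ∨ c + 4 ≤ 2 * (S.K + 1)) with hc3 | hc3
    · obtain ⟨x, hxY, hxU⟩ := pick' Y (S.w v :: Q) (by
        simp only [List.length_cons]; omega)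
      apply S.hfree
      refine ⟨S.w v, x, Q, ?_, ?_, ?_, (hwv x hxY).symm⟩
      · simp only [List.length_cons, List.length_append, List.length_nil]
        omega
      · exact nodup_snoc (L := S.w v :: Q) (List.nodup_cons.mpr ⟨hwQ, h2⟩) hxU
      · have := hchQ x (S.mem_Fs.mp (hYF hxY)).1
        rw [hQ] at this ⊢
        exact List.IsChain.cons_cons hwz this
    · by_cases hr : r = 1
      · subst hr
        obtain ⟨v', hv'Y, hv'U, hv'w⟩ := S.pick Y hYF hYR (S.w v :: Q) (by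
          refine lt_of_le_of_lt (Nat.mul_le_mul_right _ ?_) (lt_of_le_of_lt (Nat.le_add_right _ _) hYc)
          simp only [List.length_cons]; omega)
        apply ih (c + 2) ⟨S.w v, Q, v', ?_, ?_, ?_, (hwv v' hv'Y).symm, ?_, (hY v' hv'Y).1, ?_⟩
          (by obtain ⟨c', rfl⟩ := hev; exact ⟨c' + 1, by ring⟩) (by omega) (by omega)
        · simp only [List.length_cons, List.length_append, List.length_nil]
          omega
        · exact nodup_snoc (L := S.w v :: Q) (List.nodup_cons.mpr ⟨hwQ, h2⟩) hv'U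
        · have := hchQ v' (S.mem_Fs.mp (hYF hv'Y)).1
          rw [hQ] at this ⊢
          exact List.IsChain.cons_cons hwz this
        · exact (hY v' hv'Y).2.2.2.2.2
        · intro r' h8 h9 h10 h11
          have : S.w^[r'] v' ∈ (S.w v :: Q) ++ [v'] := h11
          rcases List.mem_append.mp this with h | h
          · exact hv'w r' h8 h9 h10 h
          · rw [List.mem_singleton] at h
            have := S.t_iter_lt (hYR v' hv'Y).1 h8
            rw [h] at this
            exact lt_irrefl _ this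
      · obtain ⟨y, hyY, hyU⟩ := pick' Y (S.w v :: Q) (by
          simp only [List.length_cons]; omega)
        obtain ⟨v', hv'Y, hv'U, hv'w⟩ := S.pick Y hYF hYR (S.w^[r] v :: y :: S.w v :: Q) (by
          refine lt_of_le_of_lt (Nat.mul_le_mul_right _ ?_) (lt_of_le_of_lt (Nat.le_add_right _ _) hYc)
          simp only [List.length_cons]; omega)
        apply ih (c + 4) ⟨S.w^[r] v, y :: S.w v :: Q, v', ?_, ?_, ?_, (hadj r le_rfl v' hv'Y).symm, ?_,
          (hY v' hv'Y).1, ?_⟩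
          (by obtain ⟨c', rfl⟩ := hev; exact ⟨c' + 2, by ring⟩) (by omega) (by omega)
        · simp only [List.length_cons, List.length_append, List.length_nil]
          omega
        · refine nodup_snoc (L := S.w^[r] v :: y :: S.w v :: Q) ?_ hv'U
          refine List.nodup_cons.mpr ⟨?_, List.nodup_cons.mpr ⟨hyU, List.nodup_cons.mpr ⟨hwQ, h2⟩⟩⟩
          intro h
          rcases List.mem_cons.mp h with h | h
          · exact (hadj r le_rfl y hyY).ne h
          rcases List.mem_cons.mp h with h | h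
          · have := htime 1 (by omega)
            rw [h] at this
            exact lt_irrefl _ this
          · exact hzQ h
        · have := hchQ v' (S.mem_Fs.mp (hYF hv'Y)).1
          rw [hQ] at this ⊢
          exact List.IsChain.cons_cons (hadj r le_rfl y hyY) (List.IsChain.cons_cons (hwv y hyY).symm
            (List.IsChain.cons_cons hwz this))
        · exact (hY v' hv'Y).2.2.2.2.2
        · intro r' h8 h9 h10 h11
          have : S.w^[r'] v' ∈ (S.w^[r] v :: y :: S.w v :: Q) ++ [v'] := h11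
          rcases List.mem_append.mp this with h | h
          · exact hv'w r' h8 h9 h10 h
          · rw [List.mem_singleton] at h
            have := S.t_iter_lt (hYR v' hv'Y).1 h8
            rw [h] at this
            exact lt_irrefl _ this

theorem not_rich (v : V) : ¬ S.Rich S.K v := by
  intro h
  obtain ⟨ℓ, hℓ⟩ : ∃ ℓ, S.K = ℓ + 1 := ⟨S.K - 1, by have := S.hK; omega⟩
  rw [hℓ] at h
  have hvR := S.rich_R h
  obtain ⟨r, Y, hr1, hr2, hYF, hYc, hY⟩ := S.exists_class h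
  obtain ⟨hadj, heff, htime⟩ := S.class_facts hvR hr1 hYF hYc hY
  have hYR : ∀ u ∈ Y, u ∈ S.R ∧ ¬ S.clus (MM S.K) (4 * (S.K + 1)) v u := fun u hu =>
    ⟨S.rich_R (hY u hu).1, (hY u hu).2.1⟩
  obtain ⟨y, hyY⟩ : Y.Nonempty := Finset.card_pos.mp (by omega)
  obtain ⟨v', hv'Y, hv'U, hv'w⟩ := S.pick Y hYF hYR [S.w^[r] v, y, v] (by
    refine lt_of_le_of_lt (Nat.mul_le_mul_right _ ?_) (lt_of_le_of_lt (Nat.le_add_right _ _) hYc)
    simp only [List.length_cons, List.length_nil]; omega)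
  have hvy : S.G.Adj v y := hadj 0 (by omega) y hyY
  have hvv' : S.G.Adj v v' := hadj 0 (by omega) v' hv'Y
  apply S.state_cyc ℓ 4 ⟨S.w^[r] v, [y, v], v', ?_, ?_, ?_, (hadj r le_rfl v' hv'Y).symm, ?_,
    (hY v' hv'Y).1, ?_⟩ (by decide) (by have := S.hK; omega) (by omega)
  · simp
  · refine nodup_snoc (L := [S.w^[r] v, y, v]) ?_ hv'U
    refine List.nodup_cons.mpr ⟨?_, List.nodup_cons.mpr ⟨?_, by simp⟩⟩
    · intro h
      rcases List.mem_cons.mp h with h | h
      · exact (hadj r le_rfl y hyY).ne h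
      · rw [List.mem_singleton] at h
        have := S.t_iter_lt hvR hr1
        rw [h] at this
        exact lt_irrefl _ this
    · rw [List.mem_singleton]
      exact hvy.ne'
  · exact List.IsChain.cons_cons (hadj r le_rfl y hyY) (List.IsChain.cons_cons hvy.symm
      (List.IsChain.cons_cons hvv' (by simp)))
  · exact (hY v' hv'Y).2.2.2.2.2
  · intro r' h8 h9 h10 h11
    have : S.w^[r'] v' ∈ [S.w^[r] v, y, v] ++ [v'] := h11
    rcases List.mem_append.mp this with h | h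
    · exact hv'w r' h8 h9 h10 h
    · rw [List.mem_singleton] at h
      have := S.t_iter_lt (hYR v' hv'Y).1 h8
      rw [h] at this
      exact lt_irrefl _ this

end Sys

/-- the constants of the counting argument -/
def CC (K : ℕ) : ℕ → ℕ
  | 0 => K * (2 * (K + 1)) + K
  | ℓ + 1 => (K * (2 * (K + 1)) + K) * (2 + 2 * K + Sys.DD K + K * (4 * (K + 1)) + CC K ℓ)

namespace Sys

theorem Np_card {v : V} (hv : v ∈ S.R) : #(S.Np v) ≤ #(S.Fs v) + S.K := by
  have : S.Np v ⊆ S.Fs v ∪ (Finset.Icc 1 S.K).image (fun i => S.w^[i] v) := by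
    intro y hy
    rw [S.mem_Np] at hy
    by_cases h : ∃ i, 1 ≤ i ∧ i ≤ S.K ∧ y = S.w^[i] v
    · obtain ⟨i, h1, h2, h3⟩ := h
      exact Finset.mem_union_right _ (Finset.mem_image.mpr ⟨i, Finset.mem_Icc.mpr ⟨h1, h2⟩, h3.symm⟩)
    · push Not at h
      refine Finset.mem_union_left _ (S.mem_Fs.mpr ⟨hy.1, ?_, h⟩)
      rcases lt_or_eq_of_le hy.2 with h1 | h1
      · exact h1
      · exact absurd (S.hinj v y (S.mem_R.mp hv) h1) hy.1.ne
  refine (Finset.card_le_card this).trans ((Finset.card_union_le _ _).trans ?_)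
  apply Nat.add_le_add_left
  refine Finset.card_image_le.trans ?_
  simp

theorem Fs_card (ℓ : ℕ) {v : V} (hv : v ∈ S.R) (hn : ¬ S.Rich (ℓ + 1) v) :
    #(S.Fs v) ≤ S.K + DD S.K +
      #((S.Fs v).filter (fun y => y ∈ S.R ∧ S.clus (MM S.K) (4 * (S.K + 1)) v y)) +
      #((S.Fs v).filter (fun y => ¬ S.Rich ℓ y)) := by
  have h1 : #((S.Fs v).filter (fun u => S.Rich ℓ u ∧
      ¬ S.clus (MM S.K) (4 * (S.K + 1)) v u ∧ ¬ S.tc v u)) ≤ DD S.K := by
    by_contra hcon
    push Not at hcon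
    exact hn ⟨hv, hcon.le⟩
  have h2 := S.card_tc (v := v)
  have hsub : S.Fs v ⊆ (((S.Fs v).filter (fun y => S.tc v y) ∪ (S.Fs v).filter (fun u => S.Rich ℓ u ∧
      ¬ S.clus (MM S.K) (4 * (S.K + 1)) v u ∧ ¬ S.tc v u)) ∪
      (S.Fs v).filter (fun y => y ∈ S.R ∧ S.clus (MM S.K) (4 * (S.K + 1)) v y)) ∪
      (S.Fs v).filter (fun y => ¬ S.Rich ℓ y) := by
    intro y hy
    simp only [Finset.mem_union, Finset.mem_filter, hy, true_and]
    by_cases h3 : S.Rich ℓ y
    · by_cases h4 : S.tc v y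
      · tauto
      · by_cases h5 : S.clus (MM S.K) (4 * (S.K + 1)) v y
        · have := S.rich_R h3
          tauto
        · tauto
    · tauto
  refine (Finset.card_le_card hsub).trans ?_
  refine (Finset.card_union_le _ _).trans (Nat.add_le_add_right ?_ _)
  refine (Finset.card_union_le _ _).trans (Nat.add_le_add_right ?_ _)
  refine (Finset.card_union_le _ _).trans (Nat.add_le_add h2 h1)

/-- weight of the core -/
noncomputable def HE : ℕ := ∑ y ∈ univ.filter (fun y => y ∉ S.R), #(S.Np y)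

theorem count (ℓ : ℕ) : ∑ v ∈ S.R, #((S.Fs v).filter (fun y => ¬ S.Rich ℓ y)) ≤
    CC S.K ℓ * (#S.R + S.HE) := by
  induction ℓ with
  | zero =>
    have h := S.lemmaA (univ.filter (fun y => y ∉ S.R))
    refine le_trans (le_of_eq ?_) h
    apply Finset.sum_congr rfl
    intro v _
    congr 1
    ext y
    simp [Rich]
  | succ ℓ ih =>
    have h := S.lemmaA (univ.filter (fun y => ¬ S.Rich (ℓ + 1) y))
    have h1 : ∑ v ∈ S.R, #((S.Fs v).filter (fun y => ¬ S.Rich (ℓ + 1) y)) ≤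
        (S.K * (2 * (S.K + 1)) + S.K) * (#S.R +
          ∑ y ∈ univ.filter (fun y => ¬ S.Rich (ℓ + 1) y), #(S.Np y)) := by
      refine le_trans (le_of_eq ?_) h
      apply Finset.sum_congr rfl
      intro v _
      congr 1
      ext y
      simp
    have h2 : ∑ y ∈ univ.filter (fun y => ¬ S.Rich (ℓ + 1) y), #(S.Np y) ≤
        S.HE + ∑ y ∈ S.R.filter (fun y => ¬ S.Rich (ℓ + 1) y), #(S.Np y) := by
      unfold HE
      have hsub : univ.filter (fun y => ¬ S.Rich (ℓ + 1) y) ⊆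
          univ.filter (fun y => y ∉ S.R) ∪ S.R.filter (fun y => ¬ S.Rich (ℓ + 1) y) := by
        intro y hy
        simp only [Finset.mem_union, Finset.mem_filter, Finset.mem_univ, true_and] at hy ⊢
        tauto
      refine (Finset.sum_le_sum_of_subset hsub).trans ?_
      rw [Finset.sum_union]
      rw [Finset.disjoint_left]
      intro y hy hy'
      simp only [Finset.mem_filter] at hy hy'
      exact hy.2 hy'.1
    have h3 : ∑ y ∈ S.R.filter (fun y => ¬ S.Rich (ℓ + 1) y), #(S.Np y) ≤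
        (2 * S.K + DD S.K) * #S.R + S.K * (4 * (S.K + 1)) * #S.R + CC S.K ℓ * (#S.R + S.HE) := by
      have h4 : ∀ y ∈ S.R.filter (fun y => ¬ S.Rich (ℓ + 1) y), #(S.Np y) ≤
          (2 * S.K + DD S.K) +
          #((S.Fs y).filter (fun y' => y' ∈ S.R ∧ S.clus (MM S.K) (4 * (S.K + 1)) y y')) +
          #((S.Fs y).filter (fun y' => ¬ S.Rich ℓ y')) := by
        intro y hy
        obtain ⟨hy1, hy2⟩ := Finset.mem_filter.mp hy
        have := S.Np_card hy1
        have := S.Fs_card ℓ hy1 hy2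
        omega
      refine (Finset.sum_le_sum h4).trans ?_
      refine (Finset.sum_le_sum_of_subset (Finset.filter_subset _ _)).trans ?_
      rw [Finset.sum_add_distrib, Finset.sum_add_distrib]
      refine Nat.add_le_add (Nat.add_le_add ?_ ?_) ih
      · simp [mul_comm]
      · exact S.lemmaB (MM S.K) (by unfold MM; omega)
    refine h1.trans ?_
    simp only [CC]
    rw [mul_assoc]
    apply Nat.mul_le_mul_left
    calc #S.R + ∑ y ∈ univ.filter (fun y => ¬ S.Rich (ℓ + 1) y), #(S.Np y)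
        ≤ #S.R + (S.HE + ((2 * S.K + DD S.K) * #S.R + S.K * (4 * (S.K + 1)) * #S.R +
          CC S.K ℓ * (#S.R + S.HE))) := by omega
      _ ≤ _ := by nlinarith [Nat.zero_le S.K, Nat.zero_le (DD S.K), Nat.zero_le S.HE,
          Nat.zero_le (S.K * (4 * (S.K + 1)) * S.HE), Nat.zero_le ((2 * S.K + DD S.K) * S.HE)]

/-- **Main theorem for systems.** -/
theorem total : ∑ v : V, #(S.Np v) ≤ (CC S.K S.K + S.K + 1) * (#S.R + S.HE) := by
  have h1 := S.count S.K
  have h2 : ∑ v ∈ S.R, #((S.Fs v).filter (fun y => ¬ S.Rich S.K y)) = ∑ v ∈ S.R, #(S.Fs v) := by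
    apply Finset.sum_congr rfl
    intro v _
    congr 1
    apply Finset.filter_true_of_mem
    intro y _
    exact S.not_rich y
  have h3 : ∑ v ∈ S.R, #(S.Np v) ≤ ∑ v ∈ S.R, #(S.Fs v) + S.K * #S.R := by
    refine (Finset.sum_le_sum (fun v hv => S.Np_card hv)).trans ?_
    rw [Finset.sum_add_distrib]
    simp [mul_comm]
  have h4 : ∑ v : V, #(S.Np v) = ∑ v ∈ S.R, #(S.Np v) + S.HE := by
    unfold HE
    rw [← Finset.sum_filter_add_sum_filter_not univ (fun y => y ∈ S.R)]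
    congr 1
    apply Finset.sum_congr _ (fun _ _ => rfl)
    ext y
    simp
  rw [h4]
  calc _ ≤ CC S.K S.K * (#S.R + S.HE) + S.K * #S.R + S.HE := by omega
    _ ≤ _ := by nlinarith [Nat.zero_le #S.R, Nat.zero_le S.HE, Nat.zero_le (S.K * S.HE)]

end Sys

end Q116.DE
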